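import Pool.Agent.helper16.EXG.Spec

/-!
# Project EXG, row GNR (helper79): the reflections, with explicit elements (after helper49/EXC/NRF)
-/

set_option autoImplicit false

open Finset

namespace Pool.Agent.EXC

theorem GNR : GNR_stmt := by
  intro n C _ F _ hβ i γ hγ
  have hα : ip C (sr i) (sr i) = 2 := ip_sr_self C i
  have hnα : ip C (-sr i) (-sr i) = 2 := neg_root C hα
  have e1 := (k_XGS n C F hβ (sr i) hα 1).1
  have e2 := (k_XGS n C F hβ (-sr i) hnα 1).1
  have f1 : ∀ v, (XG C (sr i) (1 : F)) v = xe C (E C (sr i)) 1 v := e1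
  have f2 : ∀ v, (XG C (-sr i) (1 : F)) v = xe C (E C (-sr i)) 1 v := e2
  generalize XG C (sr i) (1 : F) = g1 at f1 ⊢
  generalize XG C (-sr i) (1 : F) = g2 at f2 ⊢
  obtain ⟨a0, a1, a2, -, a4⟩ := f_ACT n C F (sr i) 1 hα
  obtain ⟨b0, b1, b2, -, b4⟩ := f_ACT n C F (-sr i) 1 hnα
  simp only [one_mul, one_smul, one_pow] at a0 a1 a2 a4 b0 b1 b2 b4
  have hg : ∀ v, (g1 * g2 * g1) v = g1 (g2 (g1 v)) := fun v => rfl
  rw [hg]
  obtain ⟨l1, l2⟩ := ip_abs_le (C := C) hα hγ
  have hc : ip C γ (sr i) = ip C (sr i) γ := ip_comm C _ _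
  have hss : sg C (sr i) (sr i) = -1 := sg_self C hα
  have hsq : (sg C (sr i) γ : F) * (sg C (sr i) γ : F) = 1 := sg_sq C _ _
  have hneg : ip C (-sr i) γ = -ip C (sr i) γ := ip_neg_left C _ _
  obtain h | h | h | h | h : ip C (sr i) γ = -2 ∨ ip C (sr i) γ = -1 ∨ ip C (sr i) γ = 0 ∨ ip C (sr i) γ = 1 ∨
      ip C (sr i) γ = 2 := by omega
  · -- `γ = -α`
    have hγ' : γ = -sr i := eq_neg_of_ip_eq_neg_two hα hγ h
    subst hγ'
    refine ⟨1, Or.inl rfl, ?_⟩
    have hr : rf C i (-sr i) = sr i := by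
      rw [rf, hc, h]
      funext k
      simp only [Pi.sub_apply, Pi.neg_apply, Pi.smul_apply, smul_eq_mul]
      ring
    rw [hr, Int.cast_one, one_smul]
    have c1 : g1 (E C (-sr i)) = (E C (-sr i) - ht C (sr i) + E C (sr i) : Lm C F) := by rw [f1, a2]
    have c2 : g2 (E C (-sr i)) = (E C (-sr i) : Lm C F) := by rw [f2, b0 _ hnα (by rw [hnα]; norm_num)]
    have c3 : g2 (ht C (sr i)) = (ht C (sr i) + (2 : F) • E C (-sr i) : Lm C F) := by
      rw [f2, b4, ip_neg_left, hα]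
      push_cast
      rw [neg_smul, sub_neg_eq_add]
    have c4 : g2 (E C (sr i)) = (E C (sr i) + ht C (sr i) + E C (-sr i) : Lm C F) := by
      have := b2
      rw [neg_neg, ht_neg, sub_neg_eq_add] at this
      rw [f2, this]
    have c5 : g1 (E C (sr i)) = (E C (sr i) : Lm C F) := by rw [f1, a0 _ hα (by rw [hα]; norm_num)]
    rw [c1, map_add, map_sub, c2, c3, c4]
    have : (E C (-sr i) - (ht C (sr i) + (2 : F) • E C (-sr i)) + (E C (sr i) + ht C (sr i) + E C (-sr i)) : Lm C F) = E C (sr i) := by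
      rw [two_smul]
      abel
    rw [this, c5]
  · -- `m = -1`
    refine ⟨sg C (sr i) γ, sg_cases C _ _, ?_⟩
    have hr : rf C i γ = sr i + γ := by
      rw [rf, hc, h]
      funext k
      simp only [Pi.sub_apply, Pi.add_apply, Pi.smul_apply, smul_eq_mul]
      ring
    have hroot : ip C (sr i + γ) (sr i + γ) = 2 := (add_root_iff hα hγ).2 h
    rw [hr]
    have c1 : g1 (E C γ) = (E C γ + (sg C (sr i) γ : F) • E C (sr i + γ) : Lm C F) := by rw [f1, a1 _ hγ h]
    have c2 : g2 (E C γ) = (E C γ : Lm C F) := by rw [f2, b0 _ hγ (by rw [hneg, h]; norm_num)]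
    have c3 : g2 (E C (sr i + γ)) = (E C (sr i + γ) - (sg C (sr i) γ : F) • E C γ : Lm C F) := by
      have k1 : ip C (-sr i) (sr i + γ) = -1 := by
        rw [ip_neg_left, ip_add_right, hα, h]; norm_num
      have k2 : -sr i + (sr i + γ) = γ := by abel
      rw [f2, b1 _ hroot k1, k2, sg_neg_left, sg_add_right, hss]
      push_cast
      rw [neg_one_mul, neg_smul, ← sub_eq_add_neg]
    have c5 : g1 (E C (sr i + γ)) = (E C (sr i + γ) : Lm C F) := by
      rw [f1, a0 _ hroot (by rw [ip_add_right, hα, h]; norm_num)]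
    rw [c1, map_add, map_smul, c2, c3]
    have : (E C γ + (sg C (sr i) γ : F) • (E C (sr i + γ) - (sg C (sr i) γ : F) • E C γ) : Lm C F) =
        (sg C (sr i) γ : F) • E C (sr i + γ) := by
      rw [smul_sub, smul_smul, hsq, one_smul]
      abel
    rw [this, map_smul, c5]
  · -- `m = 0`
    refine ⟨1, Or.inl rfl, ?_⟩
    have hr : rf C i γ = γ := by
      rw [rf, hc, h, zero_smul, sub_zero]
    rw [hr, Int.cast_one, one_smul]
    have c1 : g1 (E C γ) = (E C γ : Lm C F) := by rw [f1, a0 _ hγ (by rw [h])]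
    have c2 : g2 (E C γ) = (E C γ : Lm C F) := by rw [f2, b0 _ hγ (by rw [hneg, h]; norm_num)]
    rw [c1, c2, c1]
  · -- `m = 1`
    refine ⟨sg C (sr i) γ, sg_cases C _ _, ?_⟩
    have hr : rf C i γ = -sr i + γ := by
      rw [rf, hc, h, one_smul]
      abel
    have hroot : ip C (-sr i + γ) (-sr i + γ) = 2 := (add_root_iff hnα hγ).2 (by rw [hneg, h])
    rw [hr]
    have c1 : g1 (E C γ) = (E C γ : Lm C F) := by rw [f1, a0 _ hγ (by rw [h]; norm_num)]
    have c2 : g2 (E C γ) = (E C γ + (sg C (sr i) γ : F) • E C (-sr i + γ) : Lm C F) := by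
      rw [f2, b1 _ hγ (by rw [hneg, h]), sg_neg_left]
    have c3 : g1 (E C (-sr i + γ)) = (E C (-sr i + γ) - (sg C (sr i) γ : F) • E C γ : Lm C F) := by
      have k1 : ip C (sr i) (-sr i + γ) = -1 := by
        rw [ip_add_right, ip_neg_right, hα, h]; norm_num
      have k2 : sr i + (-sr i + γ) = γ := by abel
      rw [f1, a1 _ hroot k1, k2, sg_add_right, sg_neg_right, hss]
      push_cast
      rw [neg_one_mul, neg_smul, ← sub_eq_add_neg]
    rw [c1, c2, map_add, map_smul, c1, c3]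
    rw [smul_sub, smul_smul, hsq, one_smul]
    abel
  · -- `γ = α`
    have hγ' : sr i = γ := eq_of_ip_eq_two hα hγ h
    subst hγ'
    refine ⟨1, Or.inl rfl, ?_⟩
    have hr : rf C i (sr i) = -sr i := by
      rw [rf, hα]
      funext k
      simp only [Pi.sub_apply, Pi.neg_apply, Pi.smul_apply, smul_eq_mul]
      ring
    rw [hr, Int.cast_one, one_smul]
    have c1 : g1 (E C (-sr i)) = (E C (-sr i) - ht C (sr i) + E C (sr i) : Lm C F) := by rw [f1, a2]
    have c3 : g1 (ht C (sr i)) = (ht C (sr i) - (2 : F) • E C (sr i) : Lm C F) := by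
      rw [f1, a4, hα]
      push_cast
      rfl
    have c4 : g2 (E C (sr i)) = (E C (sr i) + ht C (sr i) + E C (-sr i) : Lm C F) := by
      have := b2
      rw [neg_neg, ht_neg, sub_neg_eq_add] at this
      rw [f2, this]
    have c5 : g1 (E C (sr i)) = (E C (sr i) : Lm C F) := by rw [f1, a0 _ hα (by rw [hα]; norm_num)]
    rw [c5, c4, map_add, map_add, c5, c3, c1, two_smul]
    abel

end Pool.Agent.EXC
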